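import Pool.Agent.H852R2.DM.Defs
import Pool.Agent.H769R2.EX.BPART

/-! Random `b` is good, levels up to `n^(1/2-δ)` -/

namespace DM852
open RC14 RC852 Finset Filter Equiv

namespace BPARTD

/-- the numerical estimate: the two terms of `EXPOB` -/
theorem numeric (n j K' : ℕ) (hj : 1 ≤ j) (hj2 : (128 * j : ℝ) ^ 2 ≤ n)
    (hK0 : (0 : ℝ) < K') (hK3 : (64 : ℝ) * n * n ≤ (K' : ℝ) ^ 3)
    (hK4 : (n : ℝ) ^ 3 ≤ (K' : ℝ) ^ 4) (hn : (2 : ℝ) ^ 64 ≤ n) :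
    ((64 * j : ℕ) : ℝ) * n / (K' : ℝ) ^ (4 * j + 3) +
      n * (2 ^ (64 * j) * (2 * ((64 * j : ℕ) : ℝ) / n : ℝ) ^ (64 * j / 4 + 1)) ≤
      2 * (1 / (n : ℝ)) ^ (3 * j) := by
  have hn0 : (0 : ℝ) < n := lt_of_lt_of_le (by positivity) hn
  have hn1 : (1 : ℝ) ≤ n := le_trans (by norm_num) hn
  have hj1 : (1 : ℝ) ≤ j := by exact_mod_cast hj
  have hjn : (j : ℝ) ≤ n := by
    nlinarith
  have hA : ((64 * j : ℕ) : ℝ) * n / (K' : ℝ) ^ (4 * j + 3) ≤ (1 / (n : ℝ)) ^ (3 * j) := by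
    rw [one_div, inv_pow, div_le_iff₀ (by positivity), inv_mul_eq_div, le_div_iff₀ (by positivity)]
    push_cast
    calc (64 : ℝ) * j * n * n ^ (3 * j) ≤ 64 * n * n * (n ^ 3) ^ j := by
          rw [← pow_mul]
          gcongr
      _ ≤ (K' : ℝ) ^ 3 * ((K' : ℝ) ^ 4) ^ j := by gcongr
      _ = (K' : ℝ) ^ (4 * j + 3) := by
          rw [← pow_mul, pow_add]
          ring
  -- second term
  have hx0 : 0 ≤ (2 * ((64 * j : ℕ) : ℝ) / n : ℝ) := by positivity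
  have hxx : (2 * ((64 * j : ℕ) : ℝ) / n : ℝ) ^ 2 ≤ 1 / n := by
    rw [div_pow, div_le_div_iff₀ (by positivity) hn0]
    push_cast
    have e : (2 * (64 * (j : ℝ))) ^ 2 = (128 * j) ^ 2 := by ring
    rw [e, one_mul, pow_two (n : ℝ)]
    exact mul_le_mul_of_nonneg_right hj2 hn0.le
  have hx1 : (2 * ((64 * j : ℕ) : ℝ) / n : ℝ) ≤ 1 := by
    have h5 : (2 * ((64 * j : ℕ) : ℝ) / n : ℝ) ^ 2 ≤ 1 :=
      hxx.trans ((div_le_one hn0).mpr hn1)
    nlinarith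
  have hdiv : 64 * j / 4 + 1 = 2 * (8 * j) + 1 := by omega
  have hB : n * (2 ^ (64 * j) * (2 * ((64 * j : ℕ) : ℝ) / n : ℝ) ^ (64 * j / 4 + 1)) ≤
      (1 / (n : ℝ)) ^ (3 * j) := by
    rw [hdiv, pow_succ, pow_mul _ 2 (8 * j)]
    have h6 : ((2 * ((64 * j : ℕ) : ℝ) / n : ℝ) ^ 2) ^ (8 * j) *
        (2 * ((64 * j : ℕ) : ℝ) / n : ℝ) ≤ (1 / (n : ℝ)) ^ (8 * j) := by
      calc _ ≤ (1 / (n : ℝ)) ^ (8 * j) * 1 := by gcongr
        _ = _ := mul_one _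
    have h7 : (2 : ℝ) ^ (64 * j) ≤ (n : ℝ) ^ j := by
      rw [pow_mul]
      exact pow_le_pow_left₀ (by positivity) hn j
    have h8 : (n : ℝ) ≤ n ^ j := le_self_pow₀ hn1 (by omega)
    have h9 : (n : ℝ) ^ j * (n ^ j * (1 / (n : ℝ)) ^ (8 * j)) ≤ (1 / (n : ℝ)) ^ (3 * j) := by
      rw [one_div, inv_pow, inv_pow, ← mul_assoc, ← div_eq_mul_inv, div_le_iff₀ (by positivity),
        inv_mul_eq_div, le_div_iff₀ (by positivity), ← pow_add, ← pow_add]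
      apply pow_le_pow_right₀ hn1
      omega
    refine le_trans ?_ h9
    gcongr
  linarith

end BPARTD

theorem BPARTD (δ : ℝ) (hδ : 0 < δ) (hδ1 : δ ≤ 1 / 8) : ∀ᶠ n : ℕ in atTop, ∀ q : ℕ, 1 ≤ q →
    ∀ (K : Type) [Fintype K] [Nonempty K] (g : K → Perm (Fin n)), Mix g →
    (Nat.card {b : Fin q → Alt n // ¬ GoodD δ g (cb b)} : ℝ) ≤
      1 / (n : ℝ) * (Fintype.card (Alt n) : ℝ) ^ q := by
  classical
  have hT : Tendsto (fun n : ℕ => (n : ℝ)) atTop atTop := tendsto_natCast_atTop_atTop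
  have hTd : Tendsto (fun n : ℕ => (n : ℝ) ^ δ) atTop atTop :=
    (tendsto_rpow_atTop hδ).comp hT
  filter_upwards [hT.eventually_ge_atTop ((2 : ℝ) ^ 64),
    hTd.eventually_ge_atTop (20000 : ℝ)] with n hn64 hnd
  intro q hq K _ _ g hg
  have hn0 : (0 : ℝ) < n := lt_of_lt_of_le (by positivity) hn64
  have hn1 : (1 : ℝ) ≤ n := le_trans (by norm_num) hn64
  have hnN : 1 ≤ n := by exact_mod_cast hn1
  -- powers of `n`
  have hd0 : (0 : ℝ) < (n : ℝ) ^ δ := by positivity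
  have hnd1 : (n : ℝ) ^ (1 - δ) * (n : ℝ) ^ δ = n := by
    rw [← Real.rpow_add hn0]; norm_num
  have hhalf : ((n : ℝ) ^ (1 / 2 - δ)) ^ 2 = (n : ℝ) ^ (1 - δ) / (n : ℝ) ^ δ := by
    rw [eq_div_iff hd0.ne', ← Real.rpow_natCast, ← Real.rpow_mul hn0.le, ← Real.rpow_add hn0]
    congr 1
    push_cast
    ring
  set P : ℝ := (n : ℝ) ^ (1 - δ) with hP
  have hP0 : 0 < P := by positivity
  -- `P ≥ n^(7/8) ≥ 16 n^(3/4)`
  have hP78 : (n : ℝ) ^ ((7 : ℝ) / 8) ≤ P :=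
    Real.rpow_le_rpow_of_exponent_le hn1 (by linarith)
  have h18 : (256 : ℝ) ≤ (n : ℝ) ^ ((1 : ℝ) / 8) := by
    calc (256 : ℝ) = ((2 : ℝ) ^ 64) ^ ((1 : ℝ) / 8) := by
          rw [← Real.rpow_natCast, ← Real.rpow_mul (by norm_num)]
          norm_num
      _ ≤ (n : ℝ) ^ ((1 : ℝ) / 8) := Real.rpow_le_rpow (by positivity) hn64 (by norm_num)
  set y : ℝ := (n : ℝ) ^ ((1 : ℝ) / 8) with hy
  have hy8 : y ^ 8 = n := by
    rw [hy, ← Real.rpow_natCast, ← Real.rpow_mul hn0.le]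
    norm_num
  have hy7 : y ^ 7 ≤ P := by
    refine le_trans (le_of_eq ?_) hP78
    rw [hy, ← Real.rpow_natCast, ← Real.rpow_mul hn0.le]
    norm_num
  have hy0 : 0 < y := by positivity
  have hF0 : P ≤ (FD δ n : ℝ) := Nat.le_ceil _
  set K' := FD δ n / 8 with hK'
  have hK'1 : (FD δ n : ℝ) < 8 * (K' + 1) := by
    have h5 : FD δ n < 8 * (K' + 1) := by omega
    exact_mod_cast h5
  have hPbig : (16 : ℝ) ≤ P := by
    have : (1 : ℝ) ≤ y ^ 6 := one_le_pow₀ (by linarith)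
    calc (16 : ℝ) ≤ 256 * 1 := by norm_num
      _ ≤ y * y ^ 6 := by gcongr
      _ = y ^ 7 := by ring
      _ ≤ P := hy7
  have hK'2 : P / 16 ≤ K' := by
    have : P < 8 * (K' + 1) := hF0.trans_lt hK'1
    linarith
  have hK'pos : 1 ≤ K' := by
    have : (0 : ℝ) < K' := lt_of_lt_of_le (by positivity) hK'2
    exact_mod_cast this
  have hKy : y ^ 7 / 16 ≤ K' := by
    have : y ^ 7 / 16 ≤ P / 16 := by gcongr
    exact this.trans hK'2
  have hKy0 : 0 ≤ y ^ 7 / 16 := by positivity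
  have hK0 : (0 : ℝ) < K' := by
    have : (0 : ℝ) < y ^ 7 / 16 := by positivity
    linarith
  have hK3 : (64 : ℝ) * n * n ≤ (K' : ℝ) ^ 3 := by
    refine le_trans ?_ (pow_le_pow_left₀ hKy0 hKy 3)
    rw [← hy8]
    have h5 : (64 * 16 ^ 3 : ℝ) ≤ y ^ 5 := by
      calc (64 * 16 ^ 3 : ℝ) ≤ 256 ^ 5 := by norm_num
        _ ≤ y ^ 5 := pow_le_pow_left₀ (by norm_num) h18 5
    have h6 : (64 * 16 ^ 3 : ℝ) * y ^ 16 ≤ y ^ 5 * y ^ 16 := by gcongr
    calc (64 : ℝ) * y ^ 8 * y ^ 8 = (64 * 16 ^ 3 : ℝ) * y ^ 16 / 16 ^ 3 := by ring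
      _ ≤ y ^ 5 * y ^ 16 / 16 ^ 3 := by gcongr
      _ = (y ^ 7 / 16) ^ 3 := by ring
  have hK4 : (n : ℝ) ^ 3 ≤ (K' : ℝ) ^ 4 := by
    refine le_trans ?_ (pow_le_pow_left₀ hKy0 hKy 4)
    rw [← hy8]
    have h5 : (16 ^ 4 : ℝ) ≤ y ^ 4 := by
      calc (16 ^ 4 : ℝ) ≤ 256 ^ 4 := by norm_num
        _ ≤ y ^ 4 := pow_le_pow_left₀ (by norm_num) h18 4
    have h6 : (16 ^ 4 : ℝ) * y ^ 24 ≤ y ^ 4 * y ^ 24 := by gcongr
    calc (y ^ 8) ^ 3 = (16 ^ 4 : ℝ) * y ^ 24 / 16 ^ 4 := by ring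
      _ ≤ y ^ 4 * y ^ 24 / 16 ^ 4 := by gcongr
      _ = (y ^ 7 / 16) ^ 4 := by ring
  -- properties of `mD`
  have hm0 : ∀ j : ℕ, j ≤ mD δ n → (j : ℝ) ≤ (n : ℝ) ^ (1 / 2 - δ) := by
    intro j hj
    have h5 : (mD δ n : ℝ) ≤ (n : ℝ) ^ (1 / 2 - δ) := Nat.floor_le (by positivity)
    have h6 : (j : ℝ) ≤ mD δ n := by exact_mod_cast hj
    exact h6.trans h5
  have hsq : ∀ j : ℕ, j ≤ mD δ n → (j : ℝ) ^ 2 * 20000 ≤ P := by
    intro j hj
    have h5 : (j : ℝ) ^ 2 ≤ P / (n : ℝ) ^ δ := by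
      rw [← hhalf]
      exact pow_le_pow_left₀ (Nat.cast_nonneg _) (hm0 j hj) 2
    rw [le_div_iff₀ hd0] at h5
    refine le_trans ?_ h5
    exact mul_le_mul_of_nonneg_left hnd (by positivity)
  have hPn : P ≤ n := by
    have h5 : (1 : ℝ) ≤ (n : ℝ) ^ δ := by linarith
    nlinarith [hnd1]
  have hA0 : (0 : ℝ) < (Fintype.card (Alt n) : ℝ) := by
    have : 0 < Fintype.card (Alt n) := Fintype.card_pos
    exact_mod_cast this
  have : NeZero q := ⟨by omega⟩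
  have hC0 : (0 : ℝ) < (Fintype.card (K × (Fin q × Bool)) : ℝ) := by
    have : 0 < Fintype.card (K × (Fin q × Bool)) := Fintype.card_pos
    exact_mod_cast this
  -- one level
  have hlevel : ∀ j, 1 ≤ j → j ≤ mD δ n →
      (Nat.card {b : Fin q → Alt n // ¬ ((Nat.card {w : Fin (64 * j) → K × (Fin q × Bool) //
        FD δ n ≤ nfix (bwd g (cb b) w)} : ℝ) ≤
      (1 / (n : ℝ)) ^ j * (Fintype.card (K × (Fin q × Bool)) : ℝ) ^ (64 * j))} : ℝ) ≤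
      2 * (1 / (n : ℝ)) ^ 2 * (Fintype.card (Alt n) : ℝ) ^ q := by
    intro j hj1 hj2
    have hjs := hsq j hj2
    have hj1' : (1 : ℝ) ≤ j := by exact_mod_cast hj1
    have hj128' : (128 * j : ℝ) ^ 2 ≤ n := by
      calc (128 * j : ℝ) ^ 2 = (j : ℝ) ^ 2 * 16384 := by ring
        _ ≤ (j : ℝ) ^ 2 * 20000 := by gcongr; norm_num
        _ ≤ P := hjs
        _ ≤ n := hPn
    have hJn : 2 * (64 * j) ≤ n := by
      have h5 : (128 * j : ℝ) ≤ n := by nlinarith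
      have h6 : ((2 * (64 * j) : ℕ) : ℝ) ≤ n := by
        push_cast
        linarith
      exact_mod_cast h6
    have hF : 4 * ((4 * j + 3) * (3 * (64 * j) + 1) + K') ≤ FD δ n := by
      have h5 : (8 * ((4 * j + 3) * (3 * (64 * j) + 1) : ℕ) : ℝ) ≤ FD δ n := by
        refine le_trans ?_ hF0
        push_cast
        calc (8 : ℝ) * ((4 * j + 3) * (3 * (64 * j) + 1)) ≤
            8 * ((7 * j) * (193 * j)) := by
              gcongr
              · linarith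
              · linarith
          _ = (j : ℝ) ^ 2 * 10808 := by ring
          _ ≤ (j : ℝ) ^ 2 * 20000 := by gcongr; norm_num
          _ ≤ P := hjs
      have h6 : 8 * ((4 * j + 3) * (3 * (64 * j) + 1)) ≤ FD δ n := by exact_mod_cast h5
      omega
    have hE := EXPOB n q (64 * j) (FD δ n) (4 * j + 3) K' hnN hq (by omega) hJn hK'pos
      ⟨2 * j + 1, by ring⟩ g hg hF
    have hnum := BPARTD.numeric n j K' hj1 hj128' hK0 hK3 hK4 hn64
    have hpairs := BPART.card_pairs (X := Fin q → Alt n)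
      (Y := Fin (64 * j) → K × (Fin q × Bool))
      (fun b w => FD δ n ≤ nfix (bwd g (cb b) w))
    have hE' : (Nat.card {p : (Fin q → Alt n) × (Fin (64 * j) → K × (Fin q × Bool)) //
        FD δ n ≤ nfix (bwd g (cb p.1) p.2)} : ℝ) ≤ 2 * (1 / (n : ℝ)) ^ (3 * j) *
        ((Fintype.card (Alt n) : ℝ) ^ q *
          (Fintype.card (K × (Fin q × Bool)) : ℝ) ^ (64 * j)) :=
      le_trans hE (mul_le_mul_of_nonneg_right hnum (by positivity))
    rw [hpairs] at hE'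
    push_cast at hE'
    have hnj : (0 : ℝ) < (1 / (n : ℝ)) ^ j := by positivity
    refine le_trans (BPART.markov
      (fun b : Fin q → Alt n => (Nat.card {w : Fin (64 * j) → K × (Fin q × Bool) //
        FD δ n ≤ nfix (bwd g (cb b) w)} : ℝ)) (fun b => Nat.cast_nonneg _)
      ((1 / (n : ℝ)) ^ j * (Fintype.card (K × (Fin q × Bool)) : ℝ) ^ (64 * j))
      (2 * (1 / (n : ℝ)) ^ (2 * j) * (Fintype.card (Alt n) : ℝ) ^ q) (by positivity) ?_) ?_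
    · refine le_trans hE' (le_of_eq ?_)
      have e : (1 / (n : ℝ)) ^ (3 * j) = (1 / (n : ℝ)) ^ (2 * j) * (1 / (n : ℝ)) ^ j := by
        rw [← pow_add]
        congr 1
        ring
      rw [e]
      ring
    · apply mul_le_mul_of_nonneg_right _ (by positivity)
      apply mul_le_mul_of_nonneg_left _ (by norm_num)
      apply pow_le_pow_of_le_one (by positivity)
      · rw [one_div]
        exact inv_le_one_of_one_le₀ hn1
      · omega
  -- union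
  have hU := BPART.union_bound (X := Fin q → Alt n)
    (fun j b => (Nat.card {w : Fin (64 * j) → K × (Fin q × Bool) //
        FD δ n ≤ nfix (bwd g (cb b) w)} : ℝ) ≤
      (1 / (n : ℝ)) ^ j * (Fintype.card (K × (Fin q × Bool)) : ℝ) ^ (64 * j)) (mD δ n) _ hlevel
  refine le_trans hU ?_
  have hm : (mD δ n : ℝ) ≤ n / 2 := by
    rcases Nat.eq_zero_or_pos (mD δ n) with h0 | h0
    · rw [h0]; simp only [Nat.cast_zero]; positivity
    · have h5 := hsq (mD δ n) le_rfl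
      have h6 : (1 : ℝ) ≤ mD δ n := by exact_mod_cast h0
      nlinarith
  calc (mD δ n : ℝ) * (2 * (1 / (n : ℝ)) ^ 2 * (Fintype.card (Alt n) : ℝ) ^ q) ≤
      n / 2 * (2 * (1 / (n : ℝ)) ^ 2 * (Fintype.card (Alt n) : ℝ) ^ q) := by gcongr
    _ = 1 / (n : ℝ) * (Fintype.card (Alt n) : ℝ) ^ q := by
      field_simp

end DM852
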